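import Pool.Agent.Helper30.TG.Spec

/-! TG, part FAC: the sides of a cell define it. -/

set_option autoImplicit false

namespace Pool.Agent.Helper79.TG.FAC

open Pool.Agent.Helper30.TG
open scoped Classical

section

variable {ι : Type} (a b : ι → ℝ)

/-- the sign of `e` -/
noncomputable def sg (U : Finset ι) (e : ι) : ℝ := if e ∈ U then 1 else -1

/-- the inequality of `e` is `0 < ff e q` -/
noncomputable def ff (U : Finset ι) (e : ι) (q : ℝ × ℝ) : ℝ := sg U e * (ln a b e q.1 - q.2)

theorem sg_sq (U : Finset ι) (e : ι) : sg U e * sg U e = 1 := by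
  unfold sg
  split_ifs <;> norm_num

theorem cond_iff (U : Finset ι) (e : ι) (x y : ℝ) :
    ((e ∈ U → y < ln a b e x) ∧ (e ∉ U → ln a b e x < y)) ↔ 0 < ff a b U e (x, y) := by
  unfold ff sg
  by_cases h : e ∈ U
  · simp [h]
  · simp [h]

theorem mem_cel (E U : Finset ι) (q : ℝ × ℝ) : q ∈ Cel a b E U ↔ ∀ e ∈ E, 0 < ff a b U e q := by
  unfold Cel
  constructor
  · intro h e he
    exact (cond_iff a b U e q.1 q.2).1 (h e he)
  · intro h e he
    exact (cond_iff a b U e q.1 q.2).2 (h e he)

theorem edg_iff (E U : Finset ι) (e : ι) (t : ℝ) : EdgAt a b E U e t ↔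
    ∀ g ∈ E, g ≠ e → 0 < ff a b U g (t, ln a b e t) := by
  unfold EdgAt
  constructor
  · intro h g hg hge
    exact (cond_iff a b U g t _).1 (h g hg hge)
  · intro h g hg hge
    exact (cond_iff a b U g t _).2 (h g hg hge)

theorem ff_comb (U : Finset ι) (e : ι) (z q : ℝ × ℝ) (c : ℝ) :
    ff a b U e (z.1 + c * (q.1 - z.1), z.2 + c * (q.2 - z.2)) =
      (1 - c) * ff a b U e z + c * ff a b U e q := by
  unfold ff ln
  ring

/-- a point of the line `e` which satisfies the inequalities of `B \ {e}` satisfies all -/
theorem edge_of {E U B : Finset ι} (hD : Dst a b E) (hBE : B ⊆ E)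
    (hB : ∀ q, (∀ e ∈ B, 0 < ff a b U e q) → ∀ e ∈ E, 0 < ff a b U e q) {e : ι} (he : e ∈ B)
    {x : ℝ} (hx : ∀ g ∈ B, g ≠ e → 0 < ff a b U g (x, ln a b e x)) : EdgAt a b E U e x := by
  rw [edg_iff]
  intro g hg hge
  -- small neighbourhood
  have hnear : ∃ ε : ℝ, 0 < ε ∧ ∀ s δ : ℝ, |s| ≤ ε → |δ| ≤ ε → ∀ k ∈ B, k ≠ e →
      0 < ff a b U k (x + s, ln a b e x + s * a e + δ) := by
    have h1 : ∀ k ∈ B, ∃ ε : ℝ, 0 < ε ∧ ∀ s δ : ℝ, |s| ≤ ε → |δ| ≤ ε → k ≠ e →
        0 < ff a b U k (x + s, ln a b e x + s * a e + δ) := by
      intro k hk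
      by_cases hke : k = e
      · exact ⟨1, one_pos, fun _ _ _ _ h => absurd hke h⟩
      · have h2 := hx k hk hke
        set m := ff a b U k (x, ln a b e x) with hm
        refine ⟨m / (2 * (|a k - a e| + 1)), by positivity, fun s δ hs hδ _ => ?_⟩
        have h3 : ff a b U k (x + s, ln a b e x + s * a e + δ) =
            m + sg U k * (s * (a k - a e) - δ) := by
          rw [hm]
          unfold ff ln
          ring
        have h4 : |sg U k * (s * (a k - a e) - δ)| ≤ |s| * |a k - a e| + |δ| := by
          have h5 : |sg U k| = 1 := by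
            unfold sg
            split_ifs <;> norm_num
          rw [abs_mul, h5, one_mul]
          refine (abs_sub _ _).trans ?_
          rw [abs_mul]
        have h6 : |s| * |a k - a e| + |δ| ≤ m / (2 * (|a k - a e| + 1)) * (|a k - a e| + 1) := by
          have := mul_le_mul_of_nonneg_right hs (abs_nonneg (a k - a e))
          linarith
        have h7 : m / (2 * (|a k - a e| + 1)) * (|a k - a e| + 1) = m / 2 := by
          have : |a k - a e| + 1 ≠ 0 := by positivity
          field_simp
        rw [h3]
        have h8 := neg_le_of_abs_le (h4.trans (h6.trans h7.le))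
        linarith
    choose! ε hε hε2 using h1
    by_cases hne : B.Nonempty
    · refine ⟨B.inf' hne ε, ?_, fun s δ hs hδ k hk hke => ?_⟩
      · rw [Finset.lt_inf'_iff]
        exact hε
      · have h9 : B.inf' hne ε ≤ ε k := Finset.inf'_le _ hk
        exact hε2 k hk s δ (hs.trans h9) (hδ.trans h9) hke
    · exact absurd ⟨e, he⟩ hne
  obtain ⟨ε, hε, hn⟩ := hnear
  have hweak : ∀ s : ℝ, |s| ≤ ε → 0 ≤ ff a b U g (x + s, ln a b e x + s * a e) := by
    intro s hs
    have h1 : ∀ δ : ℝ, 0 < δ → δ ≤ ε →
        0 < ff a b U g (x + s, ln a b e x + s * a e) + δ := by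
      intro δ hδ hδε
      have h2 := hB (x + s, ln a b e x + s * a e + -(sg U e * δ)) (by
        intro k hk
        by_cases hke : k = e
        · subst hke
          have : ff a b U k (x + s, ln a b k x + s * a k + -(sg U k * δ)) =
              (sg U k * sg U k) * δ := by
            unfold ff ln
            ring
          rw [this, sg_sq, one_mul]
          exact hδ
        · refine hn s _ hs ?_ k hk hke
          have h5 : |sg U e| = 1 := by
            unfold sg
            split_ifs <;> norm_num
          rw [abs_neg, abs_mul, h5, one_mul, abs_of_pos hδ]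
          exact hδε) g hg
      have h3 : ff a b U g (x + s, ln a b e x + s * a e + -(sg U e * δ)) =
          ff a b U g (x + s, ln a b e x + s * a e) + sg U g * sg U e * δ := by
        unfold ff
        ring
      rw [h3] at h2
      have h4 : sg U g * sg U e ≤ 1 := by
        unfold sg
        split_ifs <;> norm_num
      have h5 : sg U g * sg U e * δ ≤ 1 * δ := mul_le_mul_of_nonneg_right h4 hδ.le
      linarith
    by_contra hcon
    push Not at hcon
    rcases le_total (-(ff a b U g (x + s, ln a b e x + s * a e))) ε with h | h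
    · have := h1 (-(ff a b U g (x + s, ln a b e x + s * a e))) (by linarith) h
      linarith
    · have := h1 ε hε le_rfl
      linarith
  have h0 := hweak 0 (by rw [abs_zero]; exact hε.le)
  rw [add_zero, zero_mul, add_zero] at h0
  rcases h0.lt_or_eq with h | h
  · exact h
  · exfalso
    have e1 : ∀ s : ℝ, ff a b U g (x + s, ln a b e x + s * a e) =
        ff a b U g (x, ln a b e x) + s * (sg U g * (a g - a e)) := by
      intro s
      unfold ff ln
      ring
    have h1 := hweak ε (by rw [abs_of_pos hε])
    have h2 := hweak (-ε) (by rw [abs_neg, abs_of_pos hε])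
    rw [e1, ← h] at h1 h2
    have h3 : sg U g * (a g - a e) = 0 := by
      have h4 : 0 ≤ sg U g * (a g - a e) := by
        by_contra hc
        push Not at hc
        nlinarith
      have h5 : sg U g * (a g - a e) ≤ 0 := by
        by_contra hc
        push Not at hc
        nlinarith
      linarith
    have hsg : sg U g ≠ 0 := by
      unfold sg
      split_ifs <;> norm_num
    have h6 : a g = a e := by
      rcases mul_eq_zero.1 h3 with h7 | h7
      · exact absurd h7 hsg
      · linarith
    have h8 : b g = b e := by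
      have h9 : sg U g * (ln a b g x - ln a b e x) = 0 := by
        have := h.symm
        unfold ff at this
        exact this
      rcases mul_eq_zero.1 h9 with h7 | h7
      · exact absurd h7 hsg
      · unfold ln at h7
        rw [h6] at h7
        linarith
    exact hD g hg e (hBE he) hge h6 h8

end

theorem main : S_FAC := by
  intro ι a b E U hD hU hne q hq
  obtain ⟨z, hz⟩ := hne
  rw [mem_cel] at hz
  -- a minimal set of inequalities
  set F : Finset (Finset ι) := E.powerset.filter fun B =>
    ∀ q, (∀ e ∈ B, 0 < ff a b U e q) → ∀ e ∈ E, 0 < ff a b U e q with hF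
  have hEF : E ∈ F := by
    rw [hF, Finset.mem_filter]
    exact ⟨Finset.mem_powerset.2 (Finset.Subset.refl _), fun q h => h⟩
  obtain ⟨B, hB, hmin⟩ := F.exists_min_image Finset.card ⟨E, hEF⟩
  rw [hF, Finset.mem_filter, Finset.mem_powerset] at hB
  obtain ⟨hBE, hB⟩ := hB
  have hBd : ∀ e ∈ B, e ∈ Bd a b E U := by
    intro e he
    have h1 : B.erase e ∉ F := by
      intro h
      have := hmin _ h
      rw [Finset.card_erase_of_mem he] at this
      have h2 : 0 < B.card := Finset.card_pos.2 ⟨e, he⟩
      omega
    rw [hF, Finset.mem_filter, Finset.mem_powerset] at h1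
    push Not at h1
    obtain ⟨q', hq', g, hg, hgq⟩ := h1 ((Finset.erase_subset _ _).trans hBE)
    have hfe : ff a b U e q' ≤ 0 := by
      by_contra hc
      push Not at hc
      have := hB q' (by
        intro k hk
        by_cases hke : k = e
        · rw [hke]; exact hc
        · exact hq' k (Finset.mem_erase.2 ⟨hke, hk⟩)) g hg
      linarith
    have hze := hz e (hBE he)
    set c : ℝ := ff a b U e z / (ff a b U e z - ff a b U e q') with hc
    have hden : 0 < ff a b U e z - ff a b U e q' := by linarith
    have hc0 : 0 < c := div_pos hze hden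
    have hc1 : c ≤ 1 := by
      rw [hc, div_le_one hden]
      linarith
    set w : ℝ × ℝ := (z.1 + c * (q'.1 - z.1), z.2 + c * (q'.2 - z.2)) with hw
    have hwe : ff a b U e w = 0 := by
      rw [hw, ff_comb, hc]
      field_simp
      ring
    have hw2 : w.2 = ln a b e w.1 := by
      have h3 : sg U e ≠ 0 := by
        unfold sg
        split_ifs <;> norm_num
      unfold ff at hwe
      rcases mul_eq_zero.1 hwe with h4 | h4
      · exact absurd h4 h3
      · linarith
    rw [Bd, Finset.mem_filter]
    refine ⟨hBE he, w.1, edge_of a b hD hBE hB he ?_⟩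
    intro k hk hke
    rw [← hw2]
    show 0 < ff a b U k w
    rw [hw, ff_comb]
    have h5 := hz k (hBE hk)
    have h6 := hq' k (Finset.mem_erase.2 ⟨hke, hk⟩)
    have h7 : 0 ≤ (1 - c) * ff a b U k z := mul_nonneg (by linarith) h5.le
    have h8 : 0 < c * ff a b U k q' := mul_pos hc0 h6
    linarith
  rw [mem_cel]
  refine hB q fun e he => ?_
  exact (cond_iff a b U e q.1 q.2).1 (hq e (hBd e he))

end Pool.Agent.Helper79.TG.FAC
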