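import Pool.Agent.Helper79.TG.FAC

/-! TG, part ISF: the cells inside the polygon are faces. -/

set_option autoImplicit false

namespace Pool.Agent.Helper79.TG.ISF

open Set Pool.Agent.Helper30.TG Pool.Agent.Helper30.TriFace Pool.Agent.Helper79.TG.FAC
open scoped Classical

theorem cel_convex {ι : Type} (a b : ι → ℝ) (E U : Finset ι) : Convex ℝ (Cel a b E U) := by
  intro z hz q hq s t hs ht hst
  rw [mem_cel] at hz hq ⊢
  intro e he
  have h1 : ff a b U e (s • z + t • q) = s * ff a b U e z + t * ff a b U e q := by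
    unfold ff ln
    simp only [Prod.fst_add, Prod.smul_fst, Prod.snd_add, Prod.smul_snd, smul_eq_mul]
    have : s = 1 - t := by linarith
    subst this
    ring
  rw [h1]
  exact comb_pos hs ht hst (hz e he) (hq e he)

theorem main (hH : S_HUL) (hO : S_ORI) : S_ISF := by
  intro n D p hp hn hP U hU
  obtain ⟨hO1, hO2, hO3⟩ := hO p n hP
  rw [Fc, Finset.mem_filter] at hU
  obtain ⟨hUE, ⟨x, hx⟩, hU2⟩ := hU
  have hr : p '' {k | k < n} = range D.pt := by
    ext y
    constructor
    · rintro ⟨k, hk, rfl⟩
      exact ⟨⟨k, hk⟩, (hp ⟨k, hk⟩).symm⟩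
    · rintro ⟨i, rfl⟩
      exact ⟨i, i.2, hp i⟩
  set C := Cel (sl p) (ic p) (EE n) U with hC
  have hmem : ∀ {i j : ℕ}, i < j → j < n → (i, j) ∈ EE n := by
    intro i j hij hj
    rw [EE, Finset.mem_filter, Finset.mem_product, Finset.mem_range, Finset.mem_range]
    exact ⟨⟨hij.trans hj, hj⟩, hij⟩
  have hmem' : ∀ e ∈ EE n, e.1 < e.2 ∧ e.2 < n := by
    intro e he
    rw [EE, Finset.mem_filter, Finset.mem_product, Finset.mem_range, Finset.mem_range] at he
    exact ⟨he.2, he.1.2⟩
  have hne : ∀ e ∈ EE n, (p e.2).1 - (p e.1).1 ≠ 0 := by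
    intro e he
    obtain ⟨h1, h2⟩ := hmem' e he
    exact sub_ne_zero.2 (hP.2 e.1 e.2 h1 h2).symm
  have hCW : C ⊆ convexHull ℝ (range D.pt) \ edges D := by
    intro q hq
    constructor
    · rw [← hr]
      refine hH p n hn hP q fun e he => ?_
      have heE : e ∈ EE n := by
        rw [PE, Finset.mem_filter] at he
        exact he.1
      obtain ⟨h1, h2⟩ := hq e heE
      have h3 := hU2 e he
      exact ⟨fun h => h1 (h3.2 h), fun h => h2 fun h' => h (h3.1 h')⟩
    · rintro ⟨i, j, hij, hs⟩
      have key : ∀ i j : Fin n, (i : ℕ) < j → q ∈ segment ℝ (D.pt i) (D.pt j) → False := by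
        intro i j hij hs
        have heE := hmem hij j.2
        have h0 := seg_det hs
        rw [← hp i, ← hp j] at h0
        have h1 := (hO1 _ heE).2.2 q
        simp only at h1
        rw [h1] at h0
        rcases mul_eq_zero.1 h0 with h2 | h2
        · exact hne _ heE h2
        · obtain ⟨h3, h4⟩ := hq _ heE
          by_cases h5 : ((i : ℕ), (j : ℕ)) ∈ U
          · have := h3 h5
            linarith
          · have := h4 h5
            linarith
      rcases lt_or_gt_of_ne (fun h : (i : ℕ) = j => hij (Fin.ext h)) with h | h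
      · exact key i j h hs
      · rw [segment_symm] at hs
        exact key j i h hs
  refine ⟨x, hCW hx, ?_⟩
  apply Subset.antisymm
  · exact (cel_convex _ _ _ _).isPreconnected.subset_connectedComponentIn hx hCW
  · intro y hy
    set S := connectedComponentIn (convexHull ℝ (range D.pt) \ edges D) x with hS
    have hSW : S ⊆ convexHull ℝ (range D.pt) \ edges D := connectedComponentIn_subset _ _
    have hSp : IsPreconnected S := isPreconnected_connectedComponentIn
    have hxS : x ∈ S := mem_connectedComponentIn (hCW hx)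
    intro e he
    obtain ⟨h1, h2⟩ := hmem' e he
    have hd := (hO1 e he).2.2
    have hij : (⟨e.1, h1.trans h2⟩ : Fin n) ≠ ⟨e.2, h2⟩ := by
      intro h
      have := Fin.mk.inj_iff.1 h
      omega
    have hpi : D.pt ⟨e.1, h1.trans h2⟩ = p e.1 := (hp ⟨e.1, h1.trans h2⟩).symm
    have hpj : D.pt ⟨e.2, h2⟩ = p e.2 := (hp ⟨e.2, h2⟩).symm
    have hpos : ∀ u w : ℝ × ℝ, u ∈ S → w ∈ S →
        0 < ((p e.2).1 - (p e.1).1) * (u.2 - ln (sl p) (ic p) e u.1) →
        0 < ((p e.2).1 - (p e.1).1) * (w.2 - ln (sl p) (ic p) e w.1) := by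
      intro u w hu hw h
      have h3 := sign_const D hSp hSW hij hu hw (by rw [hpi, hpj, hd]; exact h)
      rw [hpi, hpj, hd] at h3
      exact h3
    have hneg : ∀ u w : ℝ × ℝ, u ∈ S → w ∈ S →
        ((p e.2).1 - (p e.1).1) * (u.2 - ln (sl p) (ic p) e u.1) < 0 →
        ((p e.2).1 - (p e.1).1) * (w.2 - ln (sl p) (ic p) e w.1) < 0 := by
      intro u w hu hw h
      by_contra hc
      push Not at hc
      rcases hc.lt_or_eq with h4 | h4
      · exact absurd (hpos w u hw hu h4) (not_lt.2 h.le)
      · have h5 := not_zero_of_mem D (hSW hw) hij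
        rw [hpi, hpj, hd] at h5
        exact h5 h4.symm
    have hsame : (x.2 < ln (sl p) (ic p) e x.1 → y.2 < ln (sl p) (ic p) e y.1) ∧
        (ln (sl p) (ic p) e x.1 < x.2 → ln (sl p) (ic p) e y.1 < y.2) := by
      rcases lt_or_gt_of_ne (hne e he) with h | h
      · constructor
        · intro h3
          have h4 := hpos x y hxS hy (mul_pos_of_neg_of_neg h (by linarith))
          have h5 := neg_of_mul_pos_right h4 h.le
          linarith
        · intro h3
          have h4 := hneg x y hxS hy (mul_neg_of_neg_of_pos h (by linarith))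
          have h5 := pos_of_mul_neg_right h4 h.le
          linarith
      · constructor
        · intro h3
          have h4 := hneg x y hxS hy (mul_neg_of_pos_of_neg h (by linarith))
          have h5 := neg_of_mul_neg_right h4 h.le
          linarith
        · intro h3
          have h4 := hpos x y hxS hy (mul_pos h (by linarith))
          have h5 := (mul_pos_iff_of_pos_left h).1 h4
          linarith
    obtain ⟨h3, h4⟩ := hx e he
    exact ⟨fun h => hsame.1 (h3 h), fun h => hsame.2 (h4 h)⟩

end Pool.Agent.Helper79.TG.ISF
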